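import Pool.Agent.Run7.h245.SR.Iface3

/-!
# Project SR, piece HTU

Dirichlet units: the box of the height with normalized absolute values is comparable with a uniform box after
multiplication by `u ^ 4`, `u ^ 6`.
-/

set_option autoImplicit false
set_option linter.all false

open NumberField NumberField.InfinitePlace

namespace Pool.Agent.Run7.h68.SR

open Pool.Agent.Run7.h245.SR Pool.Agent.N783.PF

/-- A line in the span of a subgroup of a normed space stays close to the subgroup. -/
theorem line {V : Type} [NormedAddCommGroup V] [NormedSpace ℝ V] (G : AddSubgroup V) (x : V)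
    (hx : x ∈ Submodule.span ℝ (G : Set V)) :
    ∃ c : ℝ, ∀ y : ℝ, ∃ g ∈ G, ‖y • x - g‖ ≤ c := by
  induction hx using Submodule.span_induction with
  | mem x h =>
    refine ⟨‖x‖, fun y => ⟨⌊y⌋ • x, G.zsmul_mem h _, ?_⟩⟩
    have : y • x - ⌊y⌋ • x = Int.fract y • x := by
      rw [Int.fract, sub_smul, Int.cast_smul_eq_zsmul]
    rw [this, norm_smul, Real.norm_eq_abs, abs_of_nonneg (Int.fract_nonneg y)]
    exact mul_le_of_le_one_left (norm_nonneg _) (Int.fract_lt_one y).le
  | zero => exact ⟨0, fun y => ⟨0, G.zero_mem, by simp⟩⟩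
  | add x z _ _ h1 h2 =>
    obtain ⟨c, hc⟩ := h1
    obtain ⟨d, hd⟩ := h2
    refine ⟨c + d, fun y => ?_⟩
    obtain ⟨g, hg, h1⟩ := hc y
    obtain ⟨g', hg', h2⟩ := hd y
    refine ⟨g + g', G.add_mem hg hg', ?_⟩
    have : y • (x + z) - (g + g') = (y • x - g) + (y • z - g') := by
      rw [smul_add]; abel
    rw [this]
    exact (norm_add_le _ _).trans (add_le_add h1 h2)
  | smul a x _ h1 =>
    obtain ⟨c, hc⟩ := h1
    refine ⟨c, fun y => ?_⟩
    obtain ⟨g, hg, h⟩ := hc (y * a)
    exact ⟨g, hg, by rwa [smul_smul]⟩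

/-- Units close to a multiple of the vector `R m_w / n - 1`. -/
theorem ua (F : Type) [Field F] [NumberField F] : ∃ c : ℝ, 0 ≤ c ∧ ∀ y : ℝ, ∃ u : (𝓞 F)ˣ,
    ∀ w : InfinitePlace F, |(w.mult : ℝ) * Real.log (w ((u : 𝓞 F) : F)) -
      y * ((Fintype.card (InfinitePlace F) : ℝ) * w.mult / Module.finrank ℚ F - 1)| ≤ c := by
  classical
  have hn : (0 : ℝ) < Module.finrank ℚ F := by exact_mod_cast Module.finrank_pos
  set t : InfinitePlace F → ℝ := fun w =>
    (Fintype.card (InfinitePlace F) : ℝ) * w.mult / Module.finrank ℚ F - 1 with ht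
  have hsum : ∑ w, t w = 0 := by
    simp only [ht]
    rw [Finset.sum_sub_distrib, ← Finset.sum_div, ← Finset.mul_sum]
    have h : (∑ w : InfinitePlace F, (w.mult : ℝ)) = Module.finrank ℚ F := by
      exact_mod_cast NumberField.InfinitePlace.sum_mult_eq
    rw [h]
    simp only [Finset.sum_const, Finset.card_univ, nsmul_eq_mul, mul_one]
    field_simp
    ring
  let x : Units.dirichletUnitTheorem.logSpace F := fun w => t w.1
  have hx : x ∈ Submodule.span ℝ ((Units.unitLattice F).toAddSubgroup :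
      Set (Units.dirichletUnitTheorem.logSpace F)) := by
    have := Units.dirichletUnitTheorem.unitLattice_span_eq_top F
    rw [Submodule.coe_toAddSubgroup, this]
    exact Submodule.mem_top
  obtain ⟨c, hc⟩ := line _ x hx
  have hc0 : 0 ≤ c := (norm_nonneg _).trans (hc 0).choose_spec.2
  set R : ℝ := (Fintype.card (InfinitePlace F) : ℝ) with hR
  have hR1 : 1 ≤ R := by
    have : 0 < Fintype.card (InfinitePlace F) := Fintype.card_pos
    rw [hR]; exact_mod_cast this
  refine ⟨R * c, by positivity, fun y => ?_⟩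
  obtain ⟨g, hg, h⟩ := hc y
  obtain ⟨v, -, hv⟩ := hg
  obtain ⟨u, rfl⟩ : ∃ u : (𝓞 F)ˣ, Additive.ofMul u = v := ⟨v.toMul, rfl⟩
  have hcomp : ∀ w : {w : InfinitePlace F // w ≠ Units.dirichletUnitTheorem.w₀},
      |(w.1.mult : ℝ) * Real.log (w.1 ((u : 𝓞 F) : F)) - y * t w.1| ≤ c := by
    intro w
    have h1 := (norm_le_pi_norm (y • x - g) w).trans h
    rw [Pi.sub_apply, Pi.smul_apply, smul_eq_mul] at h1
    have h2 : g w = (w.1.mult : ℝ) * Real.log (w.1 ((u : 𝓞 F) : F)) := by
      rw [← hv]; rfl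
    rw [h2, Real.norm_eq_abs, abs_sub_comm] at h1
    exact h1
  refine ⟨u, fun w => ?_⟩
  by_cases hw : w = Units.dirichletUnitTheorem.w₀
  · have h1 := Units.dirichletUnitTheorem.sum_logEmbedding_component u
    have h2 := hsum
    rw [Fintype.sum_eq_add_sum_subtype_ne _ (Units.dirichletUnitTheorem.w₀ : InfinitePlace F)] at h2
    have h3 : (w.mult : ℝ) * Real.log (w ((u : 𝓞 F) : F)) - y * t w =
        - ∑ w' : {w : InfinitePlace F // w ≠ Units.dirichletUnitTheorem.w₀},
          ((w'.1.mult : ℝ) * Real.log (w'.1 ((u : 𝓞 F) : F)) - y * t w'.1) := by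
      rw [Finset.sum_sub_distrib, ← Finset.mul_sum]
      simp only [Units.dirichletUnitTheorem.logEmbedding_component] at h1
      rw [h1, hw]
      linear_combination (-y) * h2
    show |(w.mult : ℝ) * Real.log (w ((u : 𝓞 F) : F)) - y * t w| ≤ R * c
    rw [h3, abs_neg]
    refine (Finset.abs_sum_le_sum_abs _ _).trans ?_
    refine (Finset.sum_le_sum fun w' _ => hcomp w').trans ?_
    rw [Finset.sum_const, nsmul_eq_mul]
    refine mul_le_mul_of_nonneg_right ?_ hc0
    rw [hR, Finset.card_univ]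
    exact_mod_cast Fintype.card_subtype_le _
  · refine (hcomp ⟨w, hw⟩).trans ?_
    nlinarith

section
variable {F : Type} [Field F] [NumberField F]

theorem hn3 (w : InfinitePlace F) (a : F) (y : ℝ) :
    (w a ^ w.mult) ^ 3 ≤ Real.exp (12 * y) ↔ w a ≤ Real.exp (4 * (y / w.mult)) := by
  have hm : (w.mult : ℝ) ≠ 0 := mult_coe_ne_zero
  have h : Real.exp (12 * y) = (Real.exp (4 * (y / w.mult)) ^ w.mult) ^ 3 := by
    rw [← Real.exp_nat_mul, ← Real.exp_nat_mul]
    congr 1
    push_cast
    field_simp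
    ring
  rw [h, pow_le_pow_iff_left₀ (by positivity) (by positivity) (by norm_num),
    pow_le_pow_iff_left₀ (by positivity) (by positivity) (by exact_mod_cast hm)]

theorem hn2 (w : InfinitePlace F) (a : F) (y : ℝ) :
    (w a ^ w.mult) ^ 2 ≤ Real.exp (12 * y) ↔ w a ≤ Real.exp (6 * (y / w.mult)) := by
  have hm : (w.mult : ℝ) ≠ 0 := mult_coe_ne_zero
  have h : Real.exp (12 * y) = (Real.exp (6 * (y / w.mult)) ^ w.mult) ^ 2 := by
    rw [← Real.exp_nat_mul, ← Real.exp_nat_mul]
    congr 1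
    push_cast
    field_simp
    ring
  rw [h, pow_le_pow_iff_left₀ (by positivity) (by positivity) (by norm_num),
    pow_le_pow_iff_left₀ (by positivity) (by positivity) (by exact_mod_cast hm)]

theorem bd_iff (x : F) (r : ℝ) : Bd x r ↔ ∀ w : InfinitePlace F, w x ≤ r := by
  constructor
  · intro h w
    rw [← norm_embedding_eq]
    exact h _
  · intro h σ
    rw [← InfinitePlace.apply]
    exact h _

end

/-- HTU. -/
theorem htu : S_HTU := by
  intro F _ _
  obtain ⟨c, hc0, hc⟩ := ua F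
  have hn : (0 : ℝ) < Module.finrank ℚ F := by exact_mod_cast Module.finrank_pos
  set n : ℝ := (Module.finrank ℚ F : ℝ) with hnd
  set R : ℝ := (Fintype.card (InfinitePlace F) : ℝ) with hR
  have hR1 : 1 ≤ R := by
    have : 0 < Fintype.card (InfinitePlace F) := Fintype.card_pos
    rw [hR]; exact_mod_cast this
  have hC : 2 * Real.exp (4 * c) ≤ (⌈2 * Real.exp (4 * c)⌉₊ : ℝ) := Nat.le_ceil _
  refine ⟨⌈2 * Real.exp (4 * c)⌉₊, Nat.one_le_iff_ne_zero.2 (by positivity), fun B₀ => ?_⟩
  set C := ⌈2 * Real.exp (4 * c)⌉₊ with hCd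
  refine ⟨Real.exp (12 * (n / (2 * R) * (2 * c + Real.log (B₀ + 2)))), fun X hX => ?_⟩
  have hX0 : 0 < X := (Real.exp_pos _).trans_le hX
  obtain ⟨y, rfl⟩ : ∃ y : ℝ, X = Real.exp (12 * y) := ⟨Real.log X / 12, by
    rw [mul_div_cancel₀ _ (by norm_num : (12 : ℝ) ≠ 0), Real.exp_log hX0]⟩
  have hy : n / (2 * R) * (2 * c + Real.log (B₀ + 2)) ≤ y := by
    have := Real.exp_le_exp.1 hX
    linarith
  set z : ℝ := R * y / n with hz
  have hz1 : Real.log (B₀ + 2) ≤ 2 * z - 2 * c := by
    have h1 : n / (2 * R) * (2 * c + Real.log (B₀ + 2)) * (2 * R / n) ≤ y * (2 * R / n) :=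
      mul_le_mul_of_nonneg_right hy (by positivity)
    have h2 : n / (2 * R) * (2 * c + Real.log (B₀ + 2)) * (2 * R / n) =
        2 * c + Real.log (B₀ + 2) := by
      field_simp
    have h3 : y * (2 * R / n) = 2 * z := by
      rw [hz]; field_simp
    rw [h2, h3] at h1
    linarith
  set E : ℝ := Real.exp (2 * z - 2 * c) with hE
  have hE1 : (B₀ : ℝ) + 2 ≤ E := by
    rw [hE, ← Real.log_le_iff_le_exp (by positivity)]
    exact hz1
  obtain ⟨u, hu⟩ := hc y
  have hB1 : (⌊E⌋₊ : ℝ) ≤ E := Nat.floor_le (by positivity)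
  have hB2 : E < (⌊E⌋₊ : ℝ) + 1 := Nat.lt_floor_add_one _
  have hB3 : B₀ + 2 ≤ ⌊E⌋₊ := Nat.le_floor (by push_cast; exact hE1)
  set B := ⌊E⌋₊ with hB
  have hB4 : (B₀ : ℝ) + 2 ≤ B := by exact_mod_cast hB3
  have hB5 : E ≤ 2 * B := by
    have : (0 : ℝ) ≤ B₀ := Nat.cast_nonneg _
    linarith
  have hB6 : Real.exp (4 * c) * E ≤ C * B := by
    calc Real.exp (4 * c) * E ≤ Real.exp (4 * c) * (2 * B) :=
          mul_le_mul_of_nonneg_left hB5 (Real.exp_pos _).le
      _ = 2 * Real.exp (4 * c) * B := by ring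
      _ ≤ C * B := mul_le_mul_of_nonneg_right hC (Nat.cast_nonneg _)
  have hlog : ∀ w : InfinitePlace F, |Real.log (w ((u : 𝓞 F) : F)) - (z - y / w.mult)| ≤ c := by
    intro w
    have hm : (1 : ℝ) ≤ w.mult := one_le_mult
    have h1 := hu w
    have h2 : (w.mult : ℝ) * Real.log (w ((u : 𝓞 F) : F)) - y * (R * w.mult / n - 1) =
        w.mult * (Real.log (w ((u : 𝓞 F) : F)) - (z - y / w.mult)) := by
      rw [hz]; field_simp
    rw [h2, abs_mul, abs_of_pos (by linarith)] at h1
    have h3 := abs_nonneg (Real.log (w ((u : 𝓞 F) : F)) - (z - y / w.mult))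
    nlinarith
  have hpos : ∀ w : InfinitePlace F, 0 < w ((u : 𝓞 F) : F) := fun w => Units.pos_at_place u w
  have hlow : ∀ w : InfinitePlace F, Real.exp (z - y / w.mult - c) ≤ w ((u : 𝓞 F) : F) := by
    intro w
    rw [← Real.le_log_iff_exp_le (hpos w)]
    have := (abs_le.1 (hlog w)).1
    linarith
  have hupp : ∀ w : InfinitePlace F, w ((u : 𝓞 F) : F) ≤ Real.exp (z - y / w.mult + c) := by
    intro w
    rw [← Real.log_le_iff_le_exp (hpos w)]
    have := (abs_le.1 (hlog w)).2
    linarith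
  refine ⟨u, B, by omega, ?_, ?_⟩
  · intro p h1 h2
    rw [bd_iff] at h1 h2
    intro w
    constructor
    · rw [hn3]
      have h := h1 w
      push_cast at h
      rw [map_mul, map_pow] at h
      have h3 : w (p.1 : F) * Real.exp (z - y / w.mult - c) ^ 4 ≤
          Real.exp (4 * (y / w.mult)) * Real.exp (z - y / w.mult - c) ^ 4 := by
        calc w (p.1 : F) * Real.exp (z - y / w.mult - c) ^ 4 ≤
              w (p.1 : F) * w ((u : 𝓞 F) : F) ^ 4 :=
              mul_le_mul_of_nonneg_left (pow_le_pow_left₀ (Real.exp_pos _).le (hlow w) 4)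
                (apply_nonneg _ _)
          _ ≤ (B : ℝ) ^ 2 := by rw [mul_comm]; exact h
          _ ≤ E ^ 2 := pow_le_pow_left₀ (Nat.cast_nonneg _) hB1 2
          _ = Real.exp (4 * (y / w.mult)) * Real.exp (z - y / w.mult - c) ^ 4 := by
              rw [hE, ← Real.exp_nat_mul, ← Real.exp_nat_mul, ← Real.exp_add]
              congr 1; push_cast; ring
      exact le_of_mul_le_mul_right h3 (by positivity)
    · rw [hn2]
      have h := h2 w
      push_cast at h
      rw [map_mul, map_pow] at h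
      have h3 : w (p.2 : F) * Real.exp (z - y / w.mult - c) ^ 6 ≤
          Real.exp (6 * (y / w.mult)) * Real.exp (z - y / w.mult - c) ^ 6 := by
        calc w (p.2 : F) * Real.exp (z - y / w.mult - c) ^ 6 ≤
              w (p.2 : F) * w ((u : 𝓞 F) : F) ^ 6 :=
              mul_le_mul_of_nonneg_left (pow_le_pow_left₀ (Real.exp_pos _).le (hlow w) 6)
                (apply_nonneg _ _)
          _ ≤ (B : ℝ) ^ 3 := by rw [mul_comm]; exact h
          _ ≤ E ^ 3 := pow_le_pow_left₀ (Nat.cast_nonneg _) hB1 3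
          _ = Real.exp (6 * (y / w.mult)) * Real.exp (z - y / w.mult - c) ^ 6 := by
              rw [hE, ← Real.exp_nat_mul, ← Real.exp_nat_mul, ← Real.exp_add]
              congr 1; push_cast; ring
      exact le_of_mul_le_mul_right h3 (by positivity)
  · intro p hp
    rw [bd_iff, bd_iff]
    constructor
    · intro w
      have h1 := (hn3 w _ y).1 (hp w).1
      push_cast
      rw [map_mul, map_pow]
      calc w ((u : 𝓞 F) : F) ^ 4 * w (p.1 : F) ≤
            Real.exp (z - y / w.mult + c) ^ 4 * Real.exp (4 * (y / w.mult)) :=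
            mul_le_mul (pow_le_pow_left₀ (hpos w).le (hupp w) 4) h1 (apply_nonneg _ _)
              (by positivity)
        _ = (Real.exp (4 * c) * E) ^ 2 := by
            rw [hE, ← Real.exp_nat_mul, ← Real.exp_add, ← Real.exp_add, ← Real.exp_nat_mul]
            congr 1; push_cast; ring
        _ ≤ ((C : ℝ) * B) ^ 2 := pow_le_pow_left₀ (by positivity) hB6 2
    · intro w
      have h1 := (hn2 w _ y).1 (hp w).2
      push_cast
      rw [map_mul, map_pow]
      calc w ((u : 𝓞 F) : F) ^ 6 * w (p.2 : F) ≤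
            Real.exp (z - y / w.mult + c) ^ 6 * Real.exp (6 * (y / w.mult)) :=
            mul_le_mul (pow_le_pow_left₀ (hpos w).le (hupp w) 6) h1 (apply_nonneg _ _)
              (by positivity)
        _ = (Real.exp (4 * c) * E) ^ 3 := by
            rw [hE, ← Real.exp_nat_mul, ← Real.exp_add, ← Real.exp_add, ← Real.exp_nat_mul]
            congr 1; push_cast; ring
        _ ≤ ((C : ℝ) * B) ^ 3 := pow_le_pow_left₀ (by positivity) hB6 3

end Pool.Agent.Run7.h68.SR
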